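import Pool.Agent.Helper20.HP.KKDefs

/-!
# HOPF-P1b: O'Neill's formula for a submersion with one-dimensional fibres
-/

open Filter Metric Module Set
open scoped Topology ContDiff RealInnerProductSpace Manifold

set_option synthInstance.maxHeartbeats 400000
set_option maxSynthPendingDepth 3

namespace Pool.Agent.Helper81.HP
open Pool.Agent.Helper20.PC Pool.Agent.Helper20.HP

variable {F F' : Type*} [NormedAddCommGroup F] [NormedSpace ℝ F]
  [NormedAddCommGroup F'] [NormedSpace ℝ F']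

lemma dG_eq_fderiv {G : F → F →L[ℝ] F →L[ℝ] ℝ} {z : F} (h : ContDiffAt ℝ 2 G z) (t a b : F) :
    dG G z t a b = fderiv ℝ G z t a b := by
  have := ((h.differentiableAt (by norm_num)).hasFDerivAt.clm_apply
    (hasFDerivAt_const a z)).clm_apply (hasFDerivAt_const b z)
  rw [dG, this.fderiv]
  simp

lemma ddG_eq_fderiv {G : F → F →L[ℝ] F →L[ℝ] ℝ} {z : F} (h : ContDiffAt ℝ 2 G z) (s t a b : F) :
    ddG G z s t a b = fderiv ℝ (fderiv ℝ G) z s t a b := by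
  have h1 : (fun w => dG G w t a b) =ᶠ[𝓝 z] (fun w => fderiv ℝ G w t a b) :=
    (h.eventually (by norm_num)).mono (fun w hw => dG_eq_fderiv hw t a b)
  have h2 : DifferentiableAt ℝ (fderiv ℝ G) z :=
    (h.fderiv_right (m := 1) (by norm_num)).differentiableAt (by norm_num)
  have h3 := ((h2.hasFDerivAt.clm_apply (hasFDerivAt_const t z)).clm_apply
    (hasFDerivAt_const a z)).clm_apply (hasFDerivAt_const b z)
  rw [ddG, h1.fderiv_eq (𝕜 := ℝ), h3.fderiv]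
  simp

section
variable {G : F → F →L[ℝ] F →L[ℝ] ℝ} {G' : F' → F' →L[ℝ] F' →L[ℝ] ℝ} {φ : F → F'} {z : F}
  {β : F → F →L[ℝ] ℝ}

/-- first derivative of the metric of the total space -/
lemma dG_total (hφ : ContDiffAt ℝ 2 φ z) (hφ' : ContDiffAt ℝ 1 (fderiv ℝ φ) z)
    (hβ : ContDiffAt ℝ 1 β z) (hG' : ContDiffAt ℝ 1 G' (φ z))
    (h : ∀ᶠ w in 𝓝 z, ∀ a b, G w a b
      = G' (φ w) (fderiv ℝ φ w a) (fderiv ℝ φ w b) + β w a * β w b) (t a b : F) :
    dG G z t a b = fderiv ℝ G' (φ z) (fderiv ℝ φ z t) (fderiv ℝ φ z a) (fderiv ℝ φ z b)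
      + G' (φ z) (fderiv ℝ (fderiv ℝ φ) z t a) (fderiv ℝ φ z b)
      + G' (φ z) (fderiv ℝ φ z a) (fderiv ℝ (fderiv ℝ φ) z t b)
      + (fderiv ℝ β z t a * β z b + β z a * fderiv ℝ β z t b) := by
  have h1 : (fun w => G w a b) =ᶠ[𝓝 z] (fun w => G' (φ w) (fderiv ℝ φ w a) (fderiv ℝ φ w b) + β w a * β w b) :=
    h.mono (fun w hw => hw a b)
  have e1 : HasFDerivAt (fun w => G' (φ w)) ((fderiv ℝ G' (φ z)).comp (fderiv ℝ φ z)) z :=
    ((hG'.differentiableAt (by norm_num)).hasFDerivAt).comp z (hφ.differentiableAt (by norm_num)).hasFDerivAt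
  have e2 : HasFDerivAt (fderiv ℝ φ) (fderiv ℝ (fderiv ℝ φ) z) z :=
    (hφ'.differentiableAt (by norm_num)).hasFDerivAt
  have e3 : HasFDerivAt β (fderiv ℝ β z) z := (hβ.differentiableAt (by norm_num)).hasFDerivAt
  have e4 := (e1.clm_apply (e2.clm_apply (hasFDerivAt_const a z))).clm_apply
    (e2.clm_apply (hasFDerivAt_const b z))
  have e5 := (e3.clm_apply (hasFDerivAt_const a z)).mul (e3.clm_apply (hasFDerivAt_const b z))
  have e6 := e4.add e5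
  rw [dG, h1.fderiv_eq (𝕜 := ℝ)]
  have e7 := e6.fderiv
  have e8 := DFunLike.congr_fun e7 t
  refine e8.trans ?_
  simp
  ring

/-- second derivative of the metric of the total space -/
lemma ddG_total (hφ : ContDiffAt ℝ 3 φ z) (hβ : ContDiffAt ℝ 2 β z) (hG' : ContDiffAt ℝ 2 G' (φ z))
    (h : ∀ᶠ w in 𝓝 z, ∀ a b, G w a b
      = G' (φ w) (fderiv ℝ φ w a) (fderiv ℝ φ w b) + β w a * β w b) (s t a b : F) :
    ddG G z s t a b =
      fderiv ℝ (fderiv ℝ G') (φ z) (fderiv ℝ φ z s) (fderiv ℝ φ z t) (fderiv ℝ φ z a) (fderiv ℝ φ z b)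
      + fderiv ℝ G' (φ z) (fderiv ℝ (fderiv ℝ φ) z s t) (fderiv ℝ φ z a) (fderiv ℝ φ z b)
      + fderiv ℝ G' (φ z) (fderiv ℝ φ z t) (fderiv ℝ (fderiv ℝ φ) z s a) (fderiv ℝ φ z b)
      + fderiv ℝ G' (φ z) (fderiv ℝ φ z t) (fderiv ℝ φ z a) (fderiv ℝ (fderiv ℝ φ) z s b)
      + (fderiv ℝ G' (φ z) (fderiv ℝ φ z s) (fderiv ℝ (fderiv ℝ φ) z t a) (fderiv ℝ φ z b)
        + G' (φ z) (fderiv ℝ (fderiv ℝ (fderiv ℝ φ)) z s t a) (fderiv ℝ φ z b)
        + G' (φ z) (fderiv ℝ (fderiv ℝ φ) z t a) (fderiv ℝ (fderiv ℝ φ) z s b))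
      + (fderiv ℝ G' (φ z) (fderiv ℝ φ z s) (fderiv ℝ φ z a) (fderiv ℝ (fderiv ℝ φ) z t b)
        + G' (φ z) (fderiv ℝ (fderiv ℝ φ) z s a) (fderiv ℝ (fderiv ℝ φ) z t b)
        + G' (φ z) (fderiv ℝ φ z a) (fderiv ℝ (fderiv ℝ (fderiv ℝ φ)) z s t b))
      + (fderiv ℝ (fderiv ℝ β) z s t a * β z b + fderiv ℝ β z t a * fderiv ℝ β z s b
        + fderiv ℝ β z s a * fderiv ℝ β z t b + β z a * fderiv ℝ (fderiv ℝ β) z s t b) := by
  have c1 : ContDiffAt ℝ 2 (fderiv ℝ φ) z := hφ.fderiv_right (m := 2) (by norm_num)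
  have c2 : ContDiffAt ℝ 1 (fderiv ℝ (fderiv ℝ φ)) z := c1.fderiv_right (m := 1) (by norm_num)
  have c3 : ContDiffAt ℝ 1 (fderiv ℝ G') (φ z) := hG'.fderiv_right (m := 1) (by norm_num)
  have c4 : ContDiffAt ℝ 1 (fderiv ℝ β) z := hβ.fderiv_right (m := 1) (by norm_num)
  have hφd : HasFDerivAt φ (fderiv ℝ φ z) z := (hφ.differentiableAt (by norm_num)).hasFDerivAt
  have h1 : (fun w => dG G w t a b) =ᶠ[𝓝 z] (fun w =>
      fderiv ℝ G' (φ w) (fderiv ℝ φ w t) (fderiv ℝ φ w a) (fderiv ℝ φ w b)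
      + G' (φ w) (fderiv ℝ (fderiv ℝ φ) w t a) (fderiv ℝ φ w b)
      + G' (φ w) (fderiv ℝ φ w a) (fderiv ℝ (fderiv ℝ φ) w t b)
      + (fderiv ℝ β w t a * β w b + β w a * fderiv ℝ β w t b)) := by
    have a1 := hφ.eventually (by norm_num)
    have a2 := c1.eventually (by norm_num)
    have a3 := hβ.eventually (by norm_num)
    have a4 := (hφ.continuousAt).eventually (hG'.eventually (by norm_num))
    filter_upwards [a1, a2, a3, a4, h.eventually_nhds] with w b1 b2 b3 b4 b5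
    exact dG_total (b1.of_le (by norm_num)) (b2.of_le (by norm_num)) (b3.of_le (by norm_num))
      (b4.of_le (by norm_num)) b5 t a b
  have e1 : HasFDerivAt (fun w => G' (φ w)) ((fderiv ℝ G' (φ z)).comp (fderiv ℝ φ z)) z :=
    ((hG'.differentiableAt (by norm_num)).hasFDerivAt).comp z hφd
  have e1' : HasFDerivAt (fun w => fderiv ℝ G' (φ w)) ((fderiv ℝ (fderiv ℝ G') (φ z)).comp (fderiv ℝ φ z)) z :=
    ((c3.differentiableAt (by norm_num)).hasFDerivAt).comp z hφd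
  have e2 : HasFDerivAt (fderiv ℝ φ) (fderiv ℝ (fderiv ℝ φ) z) z :=
    (c1.differentiableAt (by norm_num)).hasFDerivAt
  have e2' : HasFDerivAt (fderiv ℝ (fderiv ℝ φ)) (fderiv ℝ (fderiv ℝ (fderiv ℝ φ)) z) z :=
    (c2.differentiableAt (by norm_num)).hasFDerivAt
  have e3 : HasFDerivAt β (fderiv ℝ β z) z := (hβ.differentiableAt (by norm_num)).hasFDerivAt
  have e3' : HasFDerivAt (fderiv ℝ β) (fderiv ℝ (fderiv ℝ β) z) z :=
    (c4.differentiableAt (by norm_num)).hasFDerivAt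
  have p : ∀ c : F, HasFDerivAt (fun w => fderiv ℝ φ w c) _ z :=
    fun c => e2.clm_apply (hasFDerivAt_const c z)
  have pp : ∀ c d : F, HasFDerivAt (fun w => fderiv ℝ (fderiv ℝ φ) w c d) _ z :=
    fun c d => (e2'.clm_apply (hasFDerivAt_const c z)).clm_apply (hasFDerivAt_const d z)
  have q : ∀ c : F, HasFDerivAt (fun w => β w c) _ z :=
    fun c => e3.clm_apply (hasFDerivAt_const c z)
  have qq : ∀ c d : F, HasFDerivAt (fun w => fderiv ℝ β w c d) _ z :=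
    fun c d => (e3'.clm_apply (hasFDerivAt_const c z)).clm_apply (hasFDerivAt_const d z)
  have t1 := ((e1'.clm_apply (p t)).clm_apply (p a)).clm_apply (p b)
  have t2 := (e1.clm_apply (pp t a)).clm_apply (p b)
  have t3 := (e1.clm_apply (p a)).clm_apply (pp t b)
  have t4 := ((qq t a).mul (q b)).add ((q a).mul (qq t b))
  have t5 := ((t1.add t2).add t3).add t4
  rw [ddG, h1.fderiv_eq (𝕜 := ℝ)]
  have e7 := t5.fderiv
  have e8 := DFunLike.congr_fun e7 s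
  refine e8.trans ?_
  simp
  ring

end

/-- **O'Neill's formula for a Riemannian submersion with one-dimensional fibres.** -/
theorem num_submersion {F F' : Type*} [NormedAddCommGroup F] [NormedSpace ℝ F] [FiniteDimensional ℝ F]
    [NormedAddCommGroup F'] [NormedSpace ℝ F'] [FiniteDimensional ℝ F']
    {G : F → F →L[ℝ] F →L[ℝ] ℝ} {G' : F' → F' →L[ℝ] F' →L[ℝ] ℝ} {φ : F → F'} {z : F}
    {β : F → F →L[ℝ] ℝ}
    (hφ : ContDiffAt ℝ 3 φ z) (hβ : ContDiffAt ℝ 2 β z) (hG' : MetAt G' (φ z)) (hG : MetAt G z)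
    (hs : ∀ (a' : F') (s : ℝ), ∃ a, fderiv ℝ φ z a = a' ∧ β z a = s)
    (h : ∀ᶠ w in 𝓝 z, ∀ a b, G w a b
      = G' (φ w) (fderiv ℝ φ w a) (fderiv ℝ φ w b) + β w a * β w b)
    {u v : F} (hu : β z u = 0) (hv : β z v = 0) :
    num G z u v = num G' (φ z) (fderiv ℝ φ z u) (fderiv ℝ φ z v)
      - (3/4) * (fderiv ℝ β z u v - fderiv ℝ β z v u) ^ 2 := by
  have c1 : ContDiffAt ℝ 2 (fderiv ℝ φ) z := hφ.fderiv_right (m := 2) (by norm_num)
  have c2 : ContDiffAt ℝ 1 (fderiv ℝ (fderiv ℝ φ)) z := c1.fderiv_right (m := 1) (by norm_num)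
  -- symmetries
  have S_symm : ∀ a b, fderiv ℝ (fderiv ℝ φ) z a b = fderiv ℝ (fderiv ℝ φ) z b a := fun a b =>
    ((hφ.of_le (m := 2) (by norm_num)).isSymmSndFDerivAt (by simp)) a b
  have T_symm1 : ∀ a b, fderiv ℝ (fderiv ℝ (fderiv ℝ φ)) z a b
      = fderiv ℝ (fderiv ℝ (fderiv ℝ φ)) z b a := fun a b =>
    (c1.isSymmSndFDerivAt (by simp)) a b
  have T_symm2 : ∀ s a b, fderiv ℝ (fderiv ℝ (fderiv ℝ φ)) z s a b
      = fderiv ℝ (fderiv ℝ (fderiv ℝ φ)) z s b a := by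
    intro s a b
    have e : ∀ c d, fderiv ℝ (fun w => fderiv ℝ (fderiv ℝ φ) w c d) z s
        = fderiv ℝ (fderiv ℝ (fderiv ℝ φ)) z s c d := by
      intro c d
      have := (((c2.differentiableAt (by norm_num)).hasFDerivAt.clm_apply
        (hasFDerivAt_const c z)).clm_apply (hasFDerivAt_const d z)).fderiv
      rw [this]
      simp
    have e2 : (fun w => fderiv ℝ (fderiv ℝ φ) w a b) =ᶠ[𝓝 z] (fun w => fderiv ℝ (fderiv ℝ φ) w b a) := by
      have a1 := hφ.eventually (by norm_num)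
      filter_upwards [a1] with w hw
      exact ((hw.of_le (m := 2) (by norm_num)).isSymmSndFDerivAt (by simp)) a b
    rw [← e, ← e, e2.fderiv_eq (𝕜 := ℝ)]
  have G_symm : ∀ a b, G' (φ z) a b = G' (φ z) b a := hG'.symm.self_of_nhds
  have E_symm : ∀ t a b, fderiv ℝ G' (φ z) t a b = fderiv ℝ G' (φ z) t b a := by
    intro t a b
    rw [← dG_eq_fderiv hG'.smooth, ← dG_eq_fderiv hG'.smooth, dG_symm hG']
  have dT := dG_total (G := G) (hφ.of_le (by norm_num)) (c1.of_le (by norm_num))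
    (hβ.of_le (by norm_num)) (hG'.smooth.of_le (by norm_num)) h
  have ddT := ddG_total (G := G) hφ hβ hG'.smooth h
  -- Christoffel symbols of the first kind
  have hchr : ∀ a b c, β z a = 0 → β z b = 0 → chr G z a b c
      = chr G' (φ z) (fderiv ℝ φ z a) (fderiv ℝ φ z b) (fderiv ℝ φ z c)
        + G' (φ z) (fderiv ℝ (fderiv ℝ φ) z a b) (fderiv ℝ φ z c)
        + (1/2) * (fderiv ℝ β z a b + fderiv ℝ β z b a) * β z c := by
    intro a b c ha hb
    rw [chr_apply hG.smooth, chr_apply hG'.smooth, dT, dT, dT, ha, hb, dG_eq_fderiv hG'.smooth,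
      dG_eq_fderiv hG'.smooth, dG_eq_fderiv hG'.smooth, S_symm b a, S_symm c a, S_symm c b,
      G_symm (fderiv ℝ (fderiv ℝ φ) z a c) (fderiv ℝ φ z b)]
    ring
  -- the connection
  have hGam : ∀ a b, β z a = 0 → β z b = 0 →
      fderiv ℝ φ z (Gam G z a b) = Gam G' (φ z) (fderiv ℝ φ z a) (fderiv ℝ φ z b)
        + fderiv ℝ (fderiv ℝ φ) z a b ∧
      β z (Gam G z a b) = (1/2) * (fderiv ℝ β z a b + fderiv ℝ β z b a) := by
    intro a b ha hb
    obtain ⟨x, hx1, hx2⟩ := hs (Gam G' (φ z) (fderiv ℝ φ z a) (fderiv ℝ φ z b)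
        + fderiv ℝ (fderiv ℝ φ) z a b) ((1/2) * (fderiv ℝ β z a b + fderiv ℝ β z b a))
    have : Gam G z a b = x := by
      refine Gam_unique hG (fun w => ?_)
      rw [h.self_of_nhds, hx1, hx2, hchr a b w ha hb, map_add, _root_.add_apply, G_Gam hG']
    rw [this]
    exact ⟨hx1, hx2⟩
  obtain ⟨g1, g2⟩ := hGam v v hv hv
  obtain ⟨g3, g4⟩ := hGam u v hu hv
  have k1 := hchr u u (Gam G z v v) hu hu
  have k2 := hchr u v (Gam G z u v) hu hv
  rw [g1, g2, map_add, map_add] at k1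
  rw [g3, g4, map_add, map_add] at k2
  have k3 : G' (φ z) (fderiv ℝ (fderiv ℝ φ) z u u) (Gam G' (φ z) (fderiv ℝ φ z v) (fderiv ℝ φ z v))
      = chr G' (φ z) (fderiv ℝ φ z v) (fderiv ℝ φ z v) (fderiv ℝ (fderiv ℝ φ) z u u) := by
    rw [G_symm, G_Gam hG']
  have k4 : G' (φ z) (fderiv ℝ (fderiv ℝ φ) z u v) (Gam G' (φ z) (fderiv ℝ φ z u) (fderiv ℝ φ z v))
      = chr G' (φ z) (fderiv ℝ φ z u) (fderiv ℝ φ z v) (fderiv ℝ (fderiv ℝ φ) z u v) := by
    rw [G_symm, G_Gam hG']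
  rw [k3, chr_apply hG'.smooth (fderiv ℝ φ z v), chr_apply hG'.smooth _ _ (fderiv ℝ (fderiv ℝ φ) z v v)] at k1
  rw [k4, chr_apply hG'.smooth _ _ (fderiv ℝ (fderiv ℝ φ) z u v)] at k2
  simp only [dG_eq_fderiv hG'.smooth] at k1 k2
  have d1 := ddT u v u v
  have d2 := ddT u u v v
  have d3 := ddT v v u u
  simp only [hu, hv, mul_zero, zero_mul, add_zero, zero_add] at d1 d2 d3
  rw [num, num, k1, k2, d1, d2, d3, ddG_eq_fderiv hG'.smooth, ddG_eq_fderiv hG'.smooth,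
    ddG_eq_fderiv hG'.smooth]
  have T1 : fderiv ℝ (fderiv ℝ (fderiv ℝ φ)) z u v u = fderiv ℝ (fderiv ℝ (fderiv ℝ φ)) z u u v := T_symm2 u v u
  have T2 : fderiv ℝ (fderiv ℝ (fderiv ℝ φ)) z v v u = fderiv ℝ (fderiv ℝ (fderiv ℝ φ)) z u v v := by
    rw [T_symm2 v v u, T_symm1 v u]
  rw [S_symm v u, T1, T2]
  generalize fderiv ℝ (fderiv ℝ (fderiv ℝ φ)) z u u v = T1' at *
  generalize fderiv ℝ (fderiv ℝ (fderiv ℝ φ)) z u v v = T2' at *
  generalize fderiv ℝ (fderiv ℝ φ) z u u = Suu at *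
  generalize fderiv ℝ (fderiv ℝ φ) z u v = Suv at *
  generalize fderiv ℝ (fderiv ℝ φ) z v v = Svv at *
  generalize fderiv ℝ φ z u = pu at *
  generalize fderiv ℝ φ z v = pv at *
  rw [E_symm pv Suu pv, E_symm pu Suv pv, E_symm pv Suv pu, G_symm T1' pv, G_symm T2' pu]
  ring

end Pool.Agent.Helper81.HP
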