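import Pool.Agent.Helper20.HP.Data2
import Pool.Agent.Helper20.PC.Sph

/-!
# HOPF-F1: the Kaluza-Klein metric is a metric; right translations
-/

open Filter Metric Module Set
open scoped Topology ContDiff RealInnerProductSpace Manifold Quaternion

namespace Pool.Agent.Helper81.HP
open Pool.Agent.Helper20.PC Pool.Agent.Helper20.HP

section gen
variable {B 𝔸 : Type*} [NormedAddCommGroup B] [NormedSpace ℝ B] [FiniteDimensional ℝ B]
  [NormedDivisionRing 𝔸] [NormedAlgebra ℝ 𝔸] [FiniteDimensional ℝ 𝔸]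

omit [FiniteDimensional ℝ B] [FiniteDimensional ℝ 𝔸] in
lemma lam_apply (A : B → B →L[ℝ] 𝔸) (z : B × 𝔸) (u : B × 𝔸) :
    lam A z u = u.2 * z.2⁻¹ + A z.1 u.1 := by
  simp [lam]

omit [FiniteDimensional ℝ B] [FiniteDimensional ℝ 𝔸] in
lemma KK_apply (h : B → B →L[ℝ] B →L[ℝ] ℝ) (N : B → 𝔸 →L[ℝ] 𝔸 →L[ℝ] ℝ) (A : B → B →L[ℝ] 𝔸)
    (z u v : B × 𝔸) :
    KK h N A z u v = h z.1 u.1 v.1 + N z.1 (u.2 * z.2⁻¹ + A z.1 u.1) (v.2 * z.2⁻¹ + A z.1 v.1) := by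
  simp [KK, lam_apply]

lemma contDiffAt_lam {A : B → B →L[ℝ] 𝔸} {z : B × 𝔸} (hA : ContDiffAt ℝ 2 A z.1) (hz : z.2 ≠ 0) :
    ContDiffAt ℝ 2 (lam A) z := by
  have hA' : ContDiffAt ℝ 2 (fun z : B × 𝔸 => A z.1) z := hA.comp z contDiffAt_fst
  have hi : ContDiffAt ℝ 2 (fun z : B × 𝔸 => z.2⁻¹) z := by
    have h1 : ContDiffAt ℝ 2 (Ring.inverse : 𝔸 → 𝔸) z.2 := contDiffAt_ringInverse ℝ (Units.mk0 z.2 hz)
    have h2 := h1.comp z (contDiffAt_snd (𝕜 := ℝ) (E := B) (F := 𝔸) (p := z))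
    simpa only [Function.comp_def, Ring.inverse_eq_inv'] using h2
  refine contDiffAt_of_apply (fun u => ?_)
  simp only [lam_apply]
  exact (contDiffAt_const.mul hi).add (hA'.clm_apply contDiffAt_const)

theorem metAt_KK_gen {h : B → B →L[ℝ] B →L[ℝ] ℝ} {N : B → 𝔸 →L[ℝ] 𝔸 →L[ℝ] ℝ} {A : B → B →L[ℝ] 𝔸}
    {z : B × 𝔸} (hh : MetAt h z.1) (hN : FormAt N z.1) (hA : ContDiffAt ℝ 2 A z.1) (hz : z.2 ≠ 0) :
    MetAt (KK h N A) z where
  smooth := by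
    unfold KK
    refine ContDiffAt.add ?_ ?_
    · exact contDiffAt_bilinearComp (hh.smooth.comp z contDiffAt_fst) contDiffAt_const
    · exact contDiffAt_bilinearComp (hN.smooth.comp z contDiffAt_fst) (contDiffAt_lam hA hz)
  symm := by
    have h1 := (continuous_fst (X := B) (Y := 𝔸)).continuousAt (x := z) |>.eventually hh.symm
    have h2 := (continuous_fst (X := B) (Y := 𝔸)).continuousAt (x := z) |>.eventually hN.symm
    filter_upwards [h1, h2] with z' a b u v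
    rw [KK_apply, KK_apply, a, b]
  pos := by
    have h1 := (continuous_fst (X := B) (Y := 𝔸)).continuousAt (x := z) |>.eventually hh.pos
    have h2 := (continuous_fst (X := B) (Y := 𝔸)).continuousAt (x := z) |>.eventually hN.pos
    have h3 : ∀ᶠ z' : B × 𝔸 in 𝓝 z, z'.2 ≠ 0 :=
      (continuous_snd (X := B) (Y := 𝔸)).continuousAt (x := z) |>.eventually (isOpen_ne.mem_nhds hz)
    filter_upwards [h1, h2, h3] with z' a b c u hu
    rw [KK_apply]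
    have hNn : ∀ w, 0 ≤ N z'.1 w w := by
      intro w
      by_cases hw : w = 0
      · simp [hw]
      · exact (b w hw).le
    by_cases h : u.1 = 0
    · have h2 : u.2 ≠ 0 := fun h2 => hu (Prod.ext h h2)
      have h4 := b (u.2 * z'.2⁻¹) (mul_ne_zero h2 (inv_ne_zero c))
      rw [h]
      simpa using h4
    · have c1 := a _ h
      have c2 := hNn (u.2 * z'.2⁻¹ + A z'.1 u.1)
      linarith

end gen

section lin
variable {F F' : Type*} [NormedAddCommGroup F] [NormedSpace ℝ F] [FiniteDimensional ℝ F]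
  [NormedAddCommGroup F'] [NormedSpace ℝ F'] [FiniteDimensional ℝ F']

/-- naturality of the curvature numerator under linear isomorphisms. -/
theorem num_linear {G : F → F →L[ℝ] F →L[ℝ] ℝ} {G' : F' → F' →L[ℝ] F' →L[ℝ] ℝ} (L : F ≃L[ℝ] F') {z : F}
    (hG : MetAt G z) (hG' : MetAt G' (L z))
    (h : ∀ᶠ w in 𝓝 z, ∀ a b, G w a b = G' (L w) (L a) (L b)) (u v : F) :
    num G z u v = num G' (L z) (L u) (L v) := by
  have key : ∀ w : F, (∀ᶠ w' in 𝓝 w, ∀ a b, G w' a b = G' (L w') (L a) (L b)) → ∀ t a b,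
      dG G w t a b = dG G' (L w) (L t) (L a) (L b) := by
    intro w hw t a b
    have h1 : (fun w' => G w' a b) =ᶠ[𝓝 w] (fun w' => G' (L w') (L a) (L b)) :=
      hw.mono (fun w' h' => h' a b)
    have h2 : fderiv ℝ (fun w' => G' (L w') (L a) (L b)) w
        = (fderiv ℝ (fun x => G' x (L a) (L b)) (L w)).comp (L : F →L[ℝ] F') := by
      have := L.comp_right_fderiv (f := fun x => G' x (L a) (L b)) (x := w)
      simpa [Function.comp_def] using this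
    rw [dG, dG, h1.fderiv_eq (𝕜 := ℝ), h2]
    rfl
  have key2 : ∀ s t a b, ddG G z s t a b = ddG G' (L z) (L s) (L t) (L a) (L b) := by
    intro s t a b
    have h1 : (fun w => dG G w t a b) =ᶠ[𝓝 z] (fun w => dG G' (L w) (L t) (L a) (L b)) :=
      h.eventually_nhds.mono (fun w hw => key w hw t a b)
    have h2 : fderiv ℝ (fun w' => dG G' (L w') (L t) (L a) (L b)) z
        = (fderiv ℝ (fun x => dG G' x (L t) (L a) (L b)) (L z)).comp (L : F →L[ℝ] F') := by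
      have := L.comp_right_fderiv (f := fun x => dG G' x (L t) (L a) (L b)) (x := z)
      simpa [Function.comp_def] using this
    rw [ddG, ddG, h1.fderiv_eq (𝕜 := ℝ), h2]
    rfl
  have key3 : ∀ a b c, chr G z a b c = chr G' (L z) (L a) (L b) (L c) := by
    intro a b c
    rw [chr_apply hG.smooth, chr_apply hG'.smooth]
    simp only [key z h]
  have key4 : ∀ a b, L (Gam G z a b) = Gam G' (L z) (L a) (L b) := by
    intro a b
    symm
    refine Gam_unique hG' (fun w => ?_)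
    obtain ⟨w, rfl⟩ := L.surjective w
    rw [← h.self_of_nhds, G_Gam hG, key3]
  rw [num, num, key2, key2, key2, key3, key3, key4, key4]

end lin

/-- right multiplication by an invertible element in the second factor. -/
noncomputable def rightL {B 𝔸 : Type*} [NormedAddCommGroup B] [NormedSpace ℝ B]
    [NormedDivisionRing 𝔸] [NormedAlgebra ℝ 𝔸] {q : 𝔸} (hq : q ≠ 0) : (B × 𝔸) ≃L[ℝ] (B × 𝔸) :=
  ContinuousLinearEquiv.equivOfInverse
    ((ContinuousLinearMap.id ℝ B).prodMap ((ContinuousLinearMap.mul ℝ 𝔸).flip q))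
    ((ContinuousLinearMap.id ℝ B).prodMap ((ContinuousLinearMap.mul ℝ 𝔸).flip q⁻¹))
    (fun x => by ext <;> simp [hq])
    (fun x => by ext <;> simp [hq])

lemma rightL_apply {B 𝔸 : Type*} [NormedAddCommGroup B] [NormedSpace ℝ B]
    [NormedDivisionRing 𝔸] [NormedAlgebra ℝ 𝔸] {q : 𝔸} (hq : q ≠ 0) (w : B × 𝔸) :
    rightL (B := B) hq w = (w.1, w.2 * q) := rfl

theorem num_right_gen {B 𝔸 : Type*} [NormedAddCommGroup B] [NormedSpace ℝ B] [FiniteDimensional ℝ B]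
    [NormedDivisionRing 𝔸] [NormedAlgebra ℝ 𝔸] [FiniteDimensional ℝ 𝔸]
    {h : B → B →L[ℝ] B →L[ℝ] ℝ} {N : B → 𝔸 →L[ℝ] 𝔸 →L[ℝ] ℝ} {A : B → B →L[ℝ] 𝔸}
    {x : B} {q : 𝔸} (hh : MetAt h x) (hN : FormAt N x) (hA : ContDiffAt ℝ 2 A x) (hq : q ≠ 0)
    (u v : B × 𝔸) :
    num (KK h N A) (x, q) u v = num (KK h N A) (x, 1) (u.1, u.2 * q⁻¹) (v.1, v.2 * q⁻¹) := by
  have e := num_linear (rightL (B := B) (inv_ne_zero hq)) (z := (x, q)) (G := KK h N A) (G' := KK h N A)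
    (metAt_KK_gen (z := (x, q)) hh hN hA hq)
    (by
      have : rightL (B := B) (inv_ne_zero hq) (x, q) = (x, 1) := by
        simp [rightL_apply, hq]
      rw [this]
      exact metAt_KK_gen (z := (x, 1)) hh hN hA one_ne_zero)
    (by
      filter_upwards [] with w a b
      rw [KK_apply, KK_apply]
      simp only [rightL_apply, mul_inv_rev, inv_inv, mul_assoc, inv_mul_cancel_left₀ hq])
    u v
  rw [e]
  simp only [rightL_apply, mul_inv_cancel₀ hq]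

/-! ### the stubs F1 and F3 -/

theorem metAt_KK
    (Q1a : ∀ {κ : ℝ}, |κ| ≤ 1/10 → ∀ {x : E3}, x ≠ 0 → MetAt (hE κ) x)
    (Q2a : ∀ {κ ε : ℝ}, |κ| ≤ 1/10 → ∀ {x : E3}, x ≠ 0 → ContDiffAt ℝ 2 (AE κ ε) x)
    (Q5a : ∀ {κ ε T δ : ℝ}, (∀ y : E3, ‖y‖ = 1 → ∀ a, a ≠ 0 → 0 < Mf κ ε T δ y a a) →
      ∀ {x : E3}, x ≠ 0 → FormAt (NE κ ε T δ) x)
    {κ ε T δ : ℝ} (hκ : |κ| ≤ 1/10) (hM : ∀ y : E3, ‖y‖ = 1 → ∀ a, a ≠ 0 → 0 < Mf κ ε T δ y a a)
    {z : E3 × ℍ[ℝ]} (hz1 : z.1 ≠ 0) (hz2 : z.2 ≠ 0) :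
    MetAt (KK (hE κ) (NE κ ε T δ) (AE κ ε)) z :=
  metAt_KK_gen (Q1a hκ hz1) (Q5a hM hz1) (Q2a hκ hz1) hz2

theorem num_right
    (Q1a : ∀ {κ : ℝ}, |κ| ≤ 1/10 → ∀ {x : E3}, x ≠ 0 → MetAt (hE κ) x)
    (Q2a : ∀ {κ ε : ℝ}, |κ| ≤ 1/10 → ∀ {x : E3}, x ≠ 0 → ContDiffAt ℝ 2 (AE κ ε) x)
    (Q5a : ∀ {κ ε T δ : ℝ}, (∀ y : E3, ‖y‖ = 1 → ∀ a, a ≠ 0 → 0 < Mf κ ε T δ y a a) →
      ∀ {x : E3}, x ≠ 0 → FormAt (NE κ ε T δ) x)
    {κ ε T δ : ℝ} (hκ : |κ| ≤ 1/10) (hM : ∀ y : E3, ‖y‖ = 1 → ∀ a, a ≠ 0 → 0 < Mf κ ε T δ y a a)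
    {x : E3} (hx : x ≠ 0) {q : ℍ[ℝ]} (hq : q ≠ 0) (u v : E3 × ℍ[ℝ]) :
    num (KK (hE κ) (NE κ ε T δ) (AE κ ε)) (x, q) u v
      = num (KK (hE κ) (NE κ ε T δ) (AE κ ε)) (x, 1) (u.1, u.2 * q⁻¹) (v.1, v.2 * q⁻¹) :=
  num_right_gen (Q1a hκ hx) (Q5a hM hx) (Q2a hκ hx) hq u v

end Pool.Agent.Helper81.HP
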